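import Pool.Agent.Helper89.UB.Stmts

set_option autoImplicit false

open Finset

namespace Pool.Agent.Helper89.UB

theorem etk_fz_empty {n : ℕ} (E : Finset (Finset (Fin n))) (hE : ∀ e ∈ E, e.card = 2) :
    fz E ∅ = 1 := by
  unfold fz
  rw [if_pos]
  intro e he hs
  have h1 := hE e he
  rw [subset_empty.1 hs, card_empty] at h1
  omega

open scoped Classical in
theorem etk_step {n : ℕ} (E : Finset (Finset (Fin n))) (hE : ∀ e ∈ E, e.card = 2) (v : Fin n)
    (B : Finset (Fin n)) :
    (if Disjoint B (univ.filter (fun u => ({v, u} : Finset (Fin n)) ∈ E ∧ u ≠ v)) then fz E B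
      else 0) = fz E (insert v B) := by
  by_cases hd : Disjoint B (univ.filter (fun u => ({v, u} : Finset (Fin n)) ∈ E ∧ u ≠ v))
  · rw [if_pos hd]
    have key : Al E (insert v B) ↔ Al E B := by
      constructor
      · intro h e he hs
        exact h e he (hs.trans (subset_insert _ _))
      · intro h e he hs
        by_cases hve : v ∈ e
        · obtain ⟨a, b, hab, rfl⟩ := card_eq_two.1 (hE e he)
          have hh : ∀ u : Fin n, u ≠ v → ({v, u} : Finset (Fin n)) ∈ E → u ∈ B → False := by
            intro u hu1 hu2 hu3
            refine disjoint_left.1 hd hu3 ?_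
            rw [mem_filter]
            exact ⟨mem_univ _, hu2, hu1⟩
          rw [mem_insert, mem_singleton] at hve
          rcases hve with h1 | h1
          · subst h1
            refine hh b hab.symm he ?_
            have h2 := hs (mem_insert_of_mem (mem_singleton_self b))
            rw [mem_insert] at h2
            rcases h2 with h2 | h2
            · exact absurd h2 hab.symm
            · exact h2
          · subst h1
            refine hh a hab ?_ ?_
            · rw [pair_comm]
              exact he
            · have h2 := hs (mem_insert_self a {v})
              rw [mem_insert] at h2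
              rcases h2 with h2 | h2
              · exact absurd h2 hab
              · exact h2
        · refine h e he ?_
          intro w hw
          have h2 := hs hw
          rw [mem_insert] at h2
          rcases h2 with h2 | h2
          · exact absurd (h2 ▸ hw) hve
          · exact h2
    unfold fz
    by_cases hA : Al E B
    · rw [if_pos hA, if_pos (key.2 hA)]
    · rw [if_neg hA, if_neg (fun h => hA (key.1 h))]
  · rw [if_neg hd]
    rw [not_disjoint_iff] at hd
    obtain ⟨u, hu1, hu2⟩ := hd
    rw [mem_filter] at hu2
    unfold fz
    rw [if_neg]
    intro h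
    refine h _ hu2.2.1 ?_
    intro w hw
    rw [mem_insert, mem_singleton] at hw
    rcases hw with hw | hw
    · rw [hw]
      exact mem_insert_self _ _
    · rw [hw]
      exact mem_insert_of_mem hu1

theorem st_ETK : ST_ETK := by
  classical
  intro n E hE v B hv
  have hf := etk_fz_empty E hE
  unfold kap eta
  refine quo_unique (fz E) _ hf B (fun S => quo (fz E) (fun B => fz E (insert v B)) S) ?_ B
    subset_rfl
  intro B' hB'
  have h1 := quo_spec (fz E) (fun B => fz E (insert v B)) hf B'
  have h2 := etk_step E hE v B'
  refine Eq.trans ?_ h1
  refine Eq.trans ?_ h2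
  dsimp only

end Pool.Agent.Helper89.UB
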