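import Pool.Agent.Helper89.UB.Stmts

set_option autoImplicit false

open Finset

namespace Pool.Agent.Helper89.UB

theorem mrg_mem_OP {n : ℕ} (E : Finset (Finset (Fin n))) (m : ℕ) (c : Fin m → Finset (Fin n)) :
    c ∈ OP E univ m ↔ (∀ i, (c i).Nonempty) ∧ (∀ i j, i ≠ j → Disjoint (c i) (c j)) ∧
      (∀ v, ∃ i, v ∈ c i) ∧ ∀ i, Al E (c i) := by
  classical
  unfold OP
  rw [mem_filter]
  simp only [mem_univ, true_and, true_iff]

theorem mrg_Al_mono {n : ℕ} {E : Finset (Finset (Fin n))} {B C : Finset (Fin n)}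
    (h : Al E B) (hC : C ⊆ B) : Al E C := fun e he hs => h e he (hs.trans hC)

/-- forward map -/
def mrg_f {n m : ℕ} (j : Fin (m + 1)) (k : Fin m) (c : Fin (m + 1) → Finset (Fin n)) :
    Fin m → Finset (Fin n) :=
  Function.update (fun l => c (j.succAbove l)) k (c (j.succAbove k) ∪ c j)

/-- backward map -/
def mrg_g {n m : ℕ} (j : Fin (m + 1)) (k : Fin m) (c : Fin m → Finset (Fin n))
    (A : Finset (Fin n)) : Fin (m + 1) → Finset (Fin n) :=
  Fin.insertNth (α := fun _ => Finset (Fin n)) j A (Function.update c k (c k \ A))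

theorem mrg_f_self {n m : ℕ} (j : Fin (m + 1)) (k : Fin m) (c : Fin (m + 1) → Finset (Fin n)) :
    mrg_f j k c k = c (j.succAbove k) ∪ c j := by
  unfold mrg_f
  rw [Function.update_self]

theorem mrg_f_ne {n m : ℕ} (j : Fin (m + 1)) (k : Fin m) (c : Fin (m + 1) → Finset (Fin n))
    (l : Fin m) (h : l ≠ k) : mrg_f j k c l = c (j.succAbove l) := by
  unfold mrg_f
  rw [Function.update_of_ne h]

theorem mrg_g_self {n m : ℕ} (j : Fin (m + 1)) (k : Fin m) (c : Fin m → Finset (Fin n))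
    (A : Finset (Fin n)) : mrg_g j k c A j = A := by
  unfold mrg_g
  rw [Fin.insertNth_apply_same]

theorem mrg_g_k {n m : ℕ} (j : Fin (m + 1)) (k : Fin m) (c : Fin m → Finset (Fin n))
    (A : Finset (Fin n)) : mrg_g j k c A (j.succAbove k) = c k \ A := by
  unfold mrg_g
  rw [Fin.insertNth_apply_succAbove, Function.update_self]

theorem mrg_g_ne {n m : ℕ} (j : Fin (m + 1)) (k : Fin m) (c : Fin m → Finset (Fin n))
    (A : Finset (Fin n)) (l : Fin m) (h : l ≠ k) : mrg_g j k c A (j.succAbove l) = c l := by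
  unfold mrg_g
  rw [Fin.insertNth_apply_succAbove, Function.update_of_ne h]

theorem mrg_f_mem {n m : ℕ} (E : Finset (Finset (Fin n))) (j : Fin (m + 1)) (k : Fin m)
    (c : Fin (m + 1) → Finset (Fin n)) (hc : c ∈ OP E univ (m + 1))
    (hA : Al E (c (j.succAbove k) ∪ c j)) : mrg_f j k c ∈ OP E univ m := by
  rw [mrg_mem_OP] at hc ⊢
  obtain ⟨h1, h2, h3, h4⟩ := hc
  refine ⟨?_, ?_, ?_, ?_⟩
  · intro l
    by_cases hl : l = k
    · subst hl
      rw [mrg_f_self]
      exact (h1 j).mono subset_union_right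
    · rw [mrg_f_ne _ _ _ _ hl]
      exact h1 _
  · intro l l' hll
    by_cases hl : l = k
    · subst hl
      rw [mrg_f_self, mrg_f_ne _ _ _ _ hll.symm, disjoint_union_left]
      exact ⟨h2 _ _ (fun h => hll (Fin.succAbove_right_injective h)),
        h2 _ _ (Fin.ne_succAbove j l')⟩
    · by_cases hl' : l' = k
      · subst hl'
        rw [mrg_f_self, mrg_f_ne _ _ _ _ hll, disjoint_union_right]
        exact ⟨h2 _ _ (fun h => hll (Fin.succAbove_right_injective h)),
          h2 _ _ (Fin.ne_succAbove j l).symm⟩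
      · rw [mrg_f_ne _ _ _ _ hl, mrg_f_ne _ _ _ _ hl']
        exact h2 _ _ (fun h => hll (Fin.succAbove_right_injective h))
  · intro v
    obtain ⟨i, hi⟩ := h3 v
    rcases Fin.eq_self_or_eq_succAbove j i with h | ⟨l, h⟩
    · refine ⟨k, ?_⟩
      rw [mrg_f_self, mem_union]
      right
      rw [← h]
      exact hi
    · by_cases hl : l = k
      · refine ⟨k, ?_⟩
        rw [mrg_f_self, mem_union]
        left
        rw [← hl, ← h]
        exact hi
      · refine ⟨l, ?_⟩
        rw [mrg_f_ne _ _ _ _ hl, ← h]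
        exact hi
  · intro l
    by_cases hl : l = k
    · subst hl
      rw [mrg_f_self]
      exact hA
    · rw [mrg_f_ne _ _ _ _ hl]
      exact h4 _

theorem mrg_g_mem {n m : ℕ} (E : Finset (Finset (Fin n))) (j : Fin (m + 1)) (k : Fin m)
    (c : Fin m → Finset (Fin n)) (hc : c ∈ OP E univ m) (A : Finset (Fin n)) (hA : A ⊆ c k)
    (hA2 : A ≠ c k) (hA3 : A.Nonempty) : mrg_g j k c A ∈ OP E univ (m + 1) := by
  rw [mrg_mem_OP] at hc ⊢
  obtain ⟨h1, h2, h3, h4⟩ := hc
  have key : ∀ l : Fin m, mrg_g j k c A (j.succAbove l) ⊆ c l := by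
    intro l
    by_cases hl : l = k
    · subst hl
      rw [mrg_g_k]
      exact sdiff_subset
    · rw [mrg_g_ne _ _ _ _ _ hl]
  refine ⟨?_, ?_, ?_, ?_⟩
  · intro i
    rcases Fin.eq_self_or_eq_succAbove j i with h | ⟨l, h⟩
    · rw [h, mrg_g_self]
      exact hA3
    · rw [h]
      by_cases hl : l = k
      · subst hl
        rw [mrg_g_k, sdiff_nonempty]
        exact fun h => hA2 (subset_antisymm hA h)
      · rw [mrg_g_ne _ _ _ _ _ hl]
        exact h1 _
  · have hd : ∀ l : Fin m, Disjoint A (mrg_g j k c A (j.succAbove l)) := by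
      intro l
      by_cases hl : l = k
      · subst hl
        rw [mrg_g_k]
        exact disjoint_sdiff
      · rw [mrg_g_ne _ _ _ _ _ hl]
        exact (h2 _ _ (fun h => hl h.symm)).mono_left hA
    intro i i' hii
    rcases Fin.eq_self_or_eq_succAbove j i with h | ⟨l, h⟩
    · rcases Fin.eq_self_or_eq_succAbove j i' with h' | ⟨l', h'⟩
      · exact absurd (h.trans h'.symm) hii
      · rw [h, h', mrg_g_self]
        exact hd l'
    · rcases Fin.eq_self_or_eq_succAbove j i' with h' | ⟨l', h'⟩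
      · rw [h, h', mrg_g_self]
        exact (hd l).symm
      · rw [h, h']
        have hll : l ≠ l' := by
          intro e
          apply hii
          rw [h, h', e]
        exact ((h2 _ _ hll).mono_left (key l)).mono_right (key l')
  · intro v
    obtain ⟨l, hl⟩ := h3 v
    by_cases hlk : l = k
    · by_cases hv : v ∈ A
      · refine ⟨j, ?_⟩
        rw [mrg_g_self]
        exact hv
      · refine ⟨j.succAbove k, ?_⟩
        rw [mrg_g_k, mem_sdiff, ← hlk]
        exact ⟨hl, hv⟩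
    · refine ⟨j.succAbove l, ?_⟩
      rw [mrg_g_ne _ _ _ _ _ hlk]
      exact hl
  · intro i
    rcases Fin.eq_self_or_eq_succAbove j i with h | ⟨l, h⟩
    · rw [h, mrg_g_self]
      exact mrg_Al_mono (h4 k) hA
    · rw [h]
      exact mrg_Al_mono (h4 l) (key l)

theorem mrg_gf {n m : ℕ} (E : Finset (Finset (Fin n))) (j : Fin (m + 1)) (k : Fin m)
    (c : Fin (m + 1) → Finset (Fin n)) (hc : c ∈ OP E univ (m + 1)) :
    mrg_g j k (mrg_f j k c) (c j) = c := by
  rw [mrg_mem_OP] at hc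
  obtain ⟨h1, h2, h3, h4⟩ := hc
  funext i
  rcases Fin.eq_self_or_eq_succAbove j i with h | ⟨l, h⟩
  · rw [h, mrg_g_self]
  · rw [h]
    by_cases hl : l = k
    · subst hl
      rw [mrg_g_k, mrg_f_self, union_sdiff_right]
      exact sdiff_eq_self_of_disjoint (h2 _ _ (Fin.ne_succAbove j l).symm)
    · rw [mrg_g_ne _ _ _ _ _ hl, mrg_f_ne _ _ _ _ hl]

theorem mrg_fg {n m : ℕ} (j : Fin (m + 1)) (k : Fin m)
    (c : Fin m → Finset (Fin n)) (A : Finset (Fin n)) (hA : A ⊆ c k) :
    mrg_f j k (mrg_g j k c A) = c := by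
  funext l
  by_cases hl : l = k
  · subst hl
    rw [mrg_f_self, mrg_g_k, mrg_g_self]
    exact sdiff_union_of_subset hA
  · rw [mrg_f_ne _ _ _ _ hl, mrg_g_ne _ _ _ _ _ hl]

theorem mrg_card (n : ℕ) (s : Finset (Fin n)) (hs : s.Nonempty) :
    (s.ssubsets.erase ∅).card = 2 ^ s.card - 2 := by
  have h0 : (∅ : Finset (Fin n)) ∈ s.ssubsets := by
    rw [mem_ssubsets, empty_ssubset]
    exact hs
  have h1 : s.ssubsets = s.powerset.erase s := rfl
  rw [card_erase_of_mem h0, h1, card_erase_of_mem (mem_powerset_self s), card_powerset]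
  omega

theorem mrg_bij (n : ℕ) (E : Finset (Finset (Fin n))) (m : ℕ) (j : Fin (m + 1)) (k : Fin m)
    [DecidablePred (fun c : Fin (m + 1) → Finset (Fin n) => Al E (c (j.succAbove k) ∪ c j))] :
    ((OP E univ (m + 1)).filter (fun c => Al E (c (j.succAbove k) ∪ c j))).card =
      ∑ c ∈ OP E univ m, (2 ^ (c k).card - 2) := by
  have h1 : ∑ c ∈ OP E univ m, (2 ^ (c k).card - 2) =
      ((OP E univ m).sigma (fun c => (c k).ssubsets.erase ∅)).card := by
    rw [card_sigma]
    apply sum_congr rfl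
    intro c hc
    exact (mrg_card n (c k) (((mrg_mem_OP E m c).1 hc).1 k)).symm
  rw [h1]
  refine card_bij' (fun c _ => ⟨mrg_f j k c, c j⟩) (fun p _ => mrg_g j k p.1 p.2) ?_ ?_ ?_ ?_
  · intro c hc
    rw [mem_filter] at hc
    rw [mem_sigma]
    refine ⟨mrg_f_mem E j k c hc.1 hc.2, ?_⟩
    have hc1 := (mrg_mem_OP E (m + 1) c).1 hc.1
    rw [mem_erase, mem_ssubsets]
    refine ⟨(hc1.1 j).ne_empty, ?_⟩
    show c j ⊂ mrg_f j k c k
    rw [mrg_f_self]
    refine ⟨subset_union_right, ?_⟩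
    intro hs
    obtain ⟨v, hv⟩ := hc1.1 (j.succAbove k)
    have h3 := hs (mem_union_left _ hv)
    exact (disjoint_left.1 (hc1.2.1 _ _ (Fin.ne_succAbove j k).symm)) hv h3
  · intro p hp
    rw [mem_sigma, mem_erase, mem_ssubsets] at hp
    obtain ⟨hp1, hp2, hp3⟩ := hp
    rw [mem_filter]
    have hsub : p.2 ⊆ p.1 k := hp3.1
    refine ⟨mrg_g_mem E j k p.1 hp1 p.2 hsub (fun h => hp3.2 (h ▸ subset_rfl))
      (nonempty_iff_ne_empty.2 hp2), ?_⟩
    rw [mrg_g_k, mrg_g_self, sdiff_union_of_subset hsub]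
    exact ((mrg_mem_OP E m p.1).1 hp1).2.2.2 k
  · intro c hc
    rw [mem_filter] at hc
    exact mrg_gf E j k c hc.1
  · intro p hp
    rw [mem_sigma, mem_erase, mem_ssubsets] at hp
    obtain ⟨hp1, hp2, hp3⟩ := hp
    obtain ⟨c, A⟩ := p
    have h5 := mrg_fg j k c A hp3.1
    have h6 := mrg_g_self j k c A
    show (⟨mrg_f j k (mrg_g j k c A), mrg_g j k c A j⟩ :
      (_ : Fin m → Finset (Fin n)) × Finset (Fin n)) = ⟨c, A⟩
    rw [h5, h6]

theorem mrg_mg {n m : ℕ} (E : Finset (Finset (Fin n))) (c : Fin (m + 1) → Finset (Fin n))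
    [∀ (j : Fin (m + 1)) (k : Fin m), Decidable (Al E (c (j.succAbove k) ∪ c j))] :
    mg E c = ∑ j : Fin (m + 1), ∑ k : Fin m, if Al E (c (j.succAbove k) ∪ c j) then 1 else 0 := by
  classical
  unfold mg
  rw [card_filter, ← univ_product_univ, sum_product_right]
  apply sum_congr rfl
  intro j _
  rw [Fin.sum_univ_succAbove _ j]
  have h0 : (if (j, j).1 ≠ (j, j).2 ∧ Al E (c (j, j).1 ∪ c (j, j).2) then 1 else 0) = 0 := by
    rw [if_neg]
    rintro ⟨h, _⟩
    exact h rfl
  rw [h0, zero_add]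
  apply sum_congr rfl
  intro k _
  by_cases h : Al E (c (j.succAbove k) ∪ c j)
  · rw [if_pos h, if_pos]
    exact ⟨(Fin.ne_succAbove j k).symm, h⟩
  · rw [if_neg h, if_neg]
    exact fun h' => h h'.2

theorem st_MRG : ST_MRG := by
  classical
  intro n E m
  have h1 : ∀ c ∈ OP E univ (m + 1), mg E c =
      ∑ j : Fin (m + 1), ∑ k : Fin m, if Al E (c (j.succAbove k) ∪ c j) then 1 else 0 :=
    fun c _ => mrg_mg E c
  rw [sum_congr rfl h1, sum_comm]
  have h2 : ∀ j : Fin (m + 1), (∑ c ∈ OP E univ (m + 1), ∑ k : Fin m,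
      if Al E (c (j.succAbove k) ∪ c j) then 1 else 0) =
      ∑ c ∈ OP E univ m, ∑ i, (2 ^ (c i).card - 2) := by
    intro j
    rw [sum_comm, sum_comm (s := OP E univ m)]
    apply sum_congr rfl
    intro k _
    rw [← mrg_bij n E m j k, card_filter]
  rw [sum_congr rfl (fun j _ => h2 j), sum_const, card_univ, Fintype.card_fin, smul_eq_mul]

end Pool.Agent.Helper89.UB
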