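import Pool.Agent.Helper89.UB.Stmts

set_option autoImplicit false

open Finset

namespace Pool.Agent.Helper89.UB

/-- the first `i` vertices -/
def prd_W (n i : ℕ) : Finset (Fin n) := univ.filter (fun v : Fin n => v.val < i)

theorem prd_W_zero (n : ℕ) : prd_W n 0 = ∅ := by
  unfold prd_W
  rw [filter_eq_empty_iff]
  intro v _
  omega

theorem prd_W_n (n : ℕ) : prd_W n n = univ := by
  unfold prd_W
  rw [filter_eq_self]
  intro v _
  exact v.2

theorem prd_W_mem (n : ℕ) (i : Fin n) : i ∈ prd_W n (i.val + 1) := by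
  unfold prd_W
  rw [mem_filter]
  exact ⟨mem_univ _, Nat.lt_succ_self _⟩

theorem prd_W_erase (n : ℕ) (i : Fin n) : (prd_W n (i.val + 1)).erase i = prd_W n i.val := by
  unfold prd_W
  ext v
  simp only [mem_erase, mem_filter, mem_univ, true_and]
  constructor
  · rintro ⟨h1, h2⟩
    have h3 : v.val ≠ i.val := fun h => h1 (Fin.ext h)
    omega
  · intro h
    refine ⟨?_, by omega⟩
    intro h1
    rw [h1] at h
    omega

theorem prd_PW_empty {n : ℕ} (E : Finset (Finset (Fin n))) (x : ℂ) : PW E ∅ x = 1 := by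
  classical
  have h1 : sur E ∅ 0 = 1 := by
    unfold sur OP
    rw [card_eq_one]
    refine ⟨Fin.elim0, ?_⟩
    ext c
    rw [mem_filter, mem_singleton]
    constructor
    · intro _
      exact Subsingleton.elim _ _
    · intro _
      refine ⟨mem_univ _, fun i => i.elim0, fun i => i.elim0, ?_, fun i => i.elim0⟩
      intro v
      constructor
      · intro h
        exact absurd h (notMem_empty v)
      · rintro ⟨i, _⟩
        exact i.elim0
  unfold PW
  rw [card_empty, zero_add, sum_range_one, prod_range_zero, h1]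
  norm_num

theorem prd_dg_le {n : ℕ} (E : Finset (Finset (Fin n))) (U : Finset (Fin n)) (v : Fin n) :
    dg E U v ≤ deg2 E v := by
  unfold dg deg2
  refine card_le_card_of_injOn (fun u => ({v, u} : Finset (Fin n))) ?_ ?_
  · intro u hu
    rw [mem_coe, mem_filter] at hu
    rw [mem_coe, mem_filter]
    refine ⟨hu.2.1, card_pair hu.2.2.symm, mem_insert_self _ _⟩
  · intro u hu w hw h
    rw [mem_coe, mem_filter] at hu hw
    dsimp only at h
    have h1 : u ∈ ({v, w} : Finset (Fin n)) := by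
      rw [← h]
      exact mem_insert_of_mem (mem_singleton_self u)
    rw [mem_insert, mem_singleton] at h1
    rcases h1 with h1 | h1
    · exact absurd h1 hu.2.2
    · exact h1

theorem prd_sum {n : ℕ} (E : Finset (Finset (Fin n))) (hE : ∀ e ∈ E, e.card = 2) :
    ∑ i : Fin n, dg E (prd_W n i.val) i = E.card := by
  have h1 : ∑ i : Fin n, dg E (prd_W n i.val) i =
      ((univ : Finset (Fin n)).sigma (fun v => (prd_W n v.val).filter
        (fun u => ({v, u} : Finset (Fin n)) ∈ E ∧ u ≠ v))).card := by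
    rw [card_sigma]
    rfl
  rw [h1]
  refine card_bij (fun p _ => ({p.1, p.2} : Finset (Fin n))) ?_ ?_ ?_
  · intro p hp
    rw [mem_sigma, mem_filter] at hp
    exact hp.2.2.1
  · rintro ⟨v, u⟩ hp ⟨v', u'⟩ hq h
    rw [mem_sigma, mem_filter] at hp hq
    simp only [prd_W, mem_filter, mem_univ, true_and] at hp hq
    obtain ⟨hp1, hp2, hp3⟩ := hp
    obtain ⟨hq1, hq2, hq3⟩ := hq
    dsimp only at h
    have h2 : v ∈ ({v', u'} : Finset (Fin n)) := by
      rw [← h]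
      exact mem_insert_self _ _
    have h3 : u ∈ ({v', u'} : Finset (Fin n)) := by
      rw [← h]
      exact mem_insert_of_mem (mem_singleton_self u)
    have h4 : v' ∈ ({v, u} : Finset (Fin n)) := by
      rw [h]
      exact mem_insert_self _ _
    rw [mem_insert, mem_singleton] at h2 h3 h4
    have h5 : v = v' := by
      rcases h2 with h2 | h2
      · exact h2
      · rcases h4 with h4 | h4
        · exact h4.symm
        · exfalso
          rw [h2] at hp1
          rw [h4] at hq1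
          omega
    subst h5
    have h6 : u = u' := by
      rcases h3 with h3 | h3
      · exact absurd h3 hp3
      · exact h3
    subst h6
    rfl
  · intro e he
    obtain ⟨a, b, hab, rfl⟩ := card_eq_two.1 (hE e he)
    rcases lt_or_gt_of_ne (fun h : a.val = b.val => hab (Fin.ext h)) with h | h
    · refine ⟨⟨b, a⟩, ?_, ?_⟩
      · rw [mem_sigma, mem_filter]
        refine ⟨mem_univ _, ?_, ?_, hab⟩
        · simp only [prd_W, mem_filter, mem_univ, true_and]
          exact h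
        · rw [pair_comm]
          exact he
      · exact pair_comm _ _
    · refine ⟨⟨a, b⟩, ?_, rfl⟩
      rw [mem_sigma, mem_filter]
      refine ⟨mem_univ _, ?_, he, hab.symm⟩
      simp only [prd_W, mem_filter, mem_univ, true_and]
      exact h

theorem prd_tele {n : ℕ} (E : Finset (Finset (Fin n))) (x : ℂ) (hx : x ≠ 0)
    (h : ∀ W : Finset (Fin n), PW E W x ≠ 0) (k : ℕ) :
    PW E (prd_W n k) x / x ^ k =
      ∏ i ∈ range k, (PW E (prd_W n (i + 1)) x / (x * PW E (prd_W n i) x)) := by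
  induction k with
  | zero =>
    rw [prd_W_zero, prd_PW_empty, prod_range_zero, pow_zero, div_one]
  | succ k ih =>
    rw [prod_range_succ, ← ih]
    have h1 := h (prd_W n k)
    field_simp
    ring

theorem prd_one (w r : ℂ) (B : ℝ) (hw : ‖w‖ ≤ 1 / 400) (hw2 : ‖w‖ ^ 2 ≤ B)
    (hr : ‖r‖ ≤ 30 * B) : ‖(1 - w + r) * Complex.exp w - 1‖ ≤ 33 * B := by
  have h1 : ‖Complex.exp w - 1 - w‖ ≤ ‖w‖ ^ 2 :=
    Complex.norm_exp_sub_one_sub_id_le (hw.trans (by norm_num))
  obtain ⟨e, he⟩ : ∃ e, e = Complex.exp w - 1 - w := ⟨_, rfl⟩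
  have h2 : Complex.exp w = 1 + w + e := by
    rw [he]
    ring
  rw [← he] at h1
  have h3 : (1 - w + r) * Complex.exp w - 1 = -w ^ 2 + (1 - w) * e + r * (1 + w + e) := by
    rw [h2]
    ring
  have hB : 0 ≤ B := (sq_nonneg _).trans hw2
  have hw0 := norm_nonneg w
  have hsq : ‖w‖ ^ 2 ≤ 1 / 400 := by nlinarith
  have h4 : ‖1 - w‖ ≤ 1 + 1 / 400 := by
    calc ‖1 - w‖ ≤ ‖(1 : ℂ)‖ + ‖w‖ := norm_sub_le _ _
      _ ≤ 1 + 1 / 400 := by
        rw [norm_one]
        linarith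
  have h5 : ‖1 + w + e‖ ≤ 1 + 1 / 200 := by
    calc ‖1 + w + e‖ ≤ ‖(1 : ℂ) + w‖ + ‖e‖ := norm_add_le _ _
      _ ≤ ‖(1 : ℂ)‖ + ‖w‖ + ‖e‖ := by linarith [norm_add_le (1 : ℂ) w]
      _ ≤ 1 + 1 / 200 := by
        rw [norm_one]
        linarith
  rw [h3]
  calc ‖-w ^ 2 + (1 - w) * e + r * (1 + w + e)‖
      ≤ ‖-w ^ 2 + (1 - w) * e‖ + ‖r * (1 + w + e)‖ := norm_add_le _ _
    _ ≤ ‖-w ^ 2‖ + ‖(1 - w) * e‖ + ‖r * (1 + w + e)‖ := by
        linarith [norm_add_le (-w ^ 2) ((1 - w) * e)]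
    _ = ‖w‖ ^ 2 + ‖1 - w‖ * ‖e‖ + ‖r‖ * ‖1 + w + e‖ := by
        rw [norm_neg, norm_pow, norm_mul, norm_mul]
    _ ≤ B + (1 + 1 / 400) * B + (30 * B) * (1 + 1 / 200) := by
        have h6 : ‖1 - w‖ * ‖e‖ ≤ (1 + 1 / 400) * B :=
          mul_le_mul h4 (h1.trans hw2) (norm_nonneg _) (by norm_num)
        have h7 : ‖r‖ * ‖1 + w + e‖ ≤ (30 * B) * (1 + 1 / 200) :=
          mul_le_mul hr h5 (norm_nonneg _) (by positivity)
        linarith
    _ ≤ 33 * B := by linarith

theorem prd_exp (y : ℝ) (h0 : 0 ≤ y) (h1 : y ≤ 1 / 10) : Real.exp y - 1 ≤ 2 * y := by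
  have h2 := Real.abs_exp_sub_one_le (x := y) (by rw [abs_of_nonneg h0]; linarith)
  rw [abs_of_nonneg h0] at h2
  exact (le_abs_self _).trans h2

theorem st_PRD (h1 : ST_RAT) : ST_PRD := by
  intro n Δ E x hE hΔ hx hxΔ hs
  obtain ⟨hne, _⟩ := h1 n Δ E x hE hΔ hx hxΔ univ
  have hPW : ∀ W : Finset (Fin n), PW E W x ≠ 0 := fun W => (h1 n Δ E x hE hΔ hx hxΔ W).1
  have hxp : 0 < ‖x‖ := norm_pos_iff.2 hx
  obtain ⟨d, hd⟩ : ∃ d : Fin n → ℕ, d = fun i => dg E (prd_W n i.val) i := ⟨_, rfl⟩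
  obtain ⟨f, hf⟩ : ∃ f : Fin n → ℂ, f = fun i =>
      PW E (prd_W n (i.val + 1)) x / (x * PW E (prd_W n i.val) x) := ⟨_, rfl⟩
  have hdΔ : ∀ i, d i ≤ Δ := by
    intro i
    rw [hd]
    exact (prd_dg_le E _ i).trans (hΔ i)
  have hsum : ∑ i : Fin n, (d i : ℝ) = E.card := by
    rw [hd, ← prd_sum E hE]
    push_cast
    rfl
  have hsumC : ∑ i : Fin n, (d i : ℂ) = E.card := by
    rw [hd, ← prd_sum E hE]
    push_cast
    rfl
  have htele : PW E univ x / x ^ n = ∏ i : Fin n, f i := by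
    have h2 := prd_tele E x hx hPW n
    rw [prd_W_n] at h2
    rw [h2, hf, Finset.prod_range]
  have hexp : Complex.exp ((E.card : ℂ) / x) = ∏ i : Fin n, Complex.exp ((d i : ℂ) / x) := by
    rw [← Complex.exp_sum, ← sum_div, hsumC]
  have hδ : ∀ i : Fin n, ‖f i * Complex.exp ((d i : ℂ) / x) - 1‖ ≤
      33 * ((d i : ℝ) * Δ / ‖x‖ ^ 2) := by
    intro i
    have h3 := (h1 n Δ E x hE hΔ hx hxΔ (prd_W n (i.val + 1))).2 i (prd_W_mem n i)
    rw [prd_W_erase] at h3
    have h4 : (dg E (prd_W n i.val) i) = d i := by rw [hd]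
    rw [h4] at h3
    obtain ⟨r, hr⟩ : ∃ r : ℂ, r = PW E (prd_W n (i.val + 1)) x / (x * PW E (prd_W n i.val) x) - 1 +
      (d i : ℂ) / x := ⟨_, rfl⟩
    rw [← hr] at h3
    have h5 : f i = 1 - (d i : ℂ) / x + r := by
      rw [hf, hr]
      ring
    rw [h5]
    have hdi : (d i : ℝ) ≤ Δ := by exact_mod_cast hdΔ i
    have hd0 : (0 : ℝ) ≤ d i := Nat.cast_nonneg _
    have h6 : ‖(d i : ℂ) / x‖ = (d i : ℝ) / ‖x‖ := by
      rw [norm_div, Complex.norm_natCast]
    refine prd_one _ _ _ ?_ ?_ ?_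
    · rw [h6, div_le_iff₀ hxp]
      linarith
    · rw [h6, div_pow]
      apply div_le_div_of_nonneg_right _ (by positivity)
      nlinarith
    · refine h3.trans (le_of_eq ?_)
      ring
  have hprod : PW E univ x / x ^ n * Complex.exp ((E.card : ℂ) / x) =
      ∏ i : Fin n, (1 + (f i * Complex.exp ((d i : ℂ) / x) - 1)) := by
    rw [htele, hexp, ← prod_mul_distrib]
    apply prod_congr rfl
    intro i _
    ring
  rw [hprod]
  obtain ⟨s, hs'⟩ : ∃ s : ℝ, s = (Δ : ℝ) * E.card / ‖x‖ ^ 2 := ⟨_, rfl⟩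
  have hs0 : 0 ≤ s := by
    rw [hs']
    positivity
  have hs1 : s ≤ 1 / 1000 := by
    rw [hs', div_le_iff₀ (by positivity)]
    exact hs
  have hS : ∑ i : Fin n, ‖f i * Complex.exp ((d i : ℂ) / x) - 1‖ ≤ 33 * s := by
    calc ∑ i : Fin n, ‖f i * Complex.exp ((d i : ℂ) / x) - 1‖
        ≤ ∑ i : Fin n, 33 * ((d i : ℝ) * Δ / ‖x‖ ^ 2) := sum_le_sum (fun i _ => hδ i)
      _ = 33 * s := by
        rw [← mul_sum, ← sum_div, ← sum_mul, hsum, hs']
        ring
  have hS0 : 0 ≤ ∑ i : Fin n, ‖f i * Complex.exp ((d i : ℂ) / x) - 1‖ :=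
    sum_nonneg (fun i _ => norm_nonneg _)
  calc ‖∏ i : Fin n, (1 + (f i * Complex.exp ((d i : ℂ) / x) - 1)) - 1‖
      ≤ Real.exp (∑ i : Fin n, ‖f i * Complex.exp ((d i : ℂ) / x) - 1‖) - 1 :=
        Finset.norm_prod_one_add_sub_one_le _ _
    _ ≤ 2 * ∑ i : Fin n, ‖f i * Complex.exp ((d i : ℂ) / x) - 1‖ :=
        prd_exp _ hS0 (by linarith)
    _ ≤ 2 * (33 * s) := by linarith
    _ ≤ 200 * s := by linarith
    _ = 200 * ((Δ : ℝ) * E.card) / ‖x‖ ^ 2 := by
        rw [hs']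
        ring

end Pool.Agent.Helper89.UB
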